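import Pool.Agent.W2helper37.SG.Stm3

/-! # Piece OCM of project SG (MP_56c18a_ag): `ZZ` commutes with the even part. -/

set_option autoImplicit false
set_option linter.unusedSectionVars false
set_option linter.unusedSimpArgs false
set_option linter.unusedVariables false
set_option backward.isDefEq.respectTransparency false
set_option backward.defeqAttrib.useBackward true

open CategoryTheory Limits MonoidalCategory
open Pool.Agent.W2helper37.SG

namespace Pool.Agent.W2helper78.SG

universe v u w

section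

variable {K : Type w} [Field K] {ι : Type} [Fintype ι] [DecidableEq ι]
  {o : ι → Bool} {σ : ι → ι} {γ : ι → K} {N : ι → ℤ}
  {Q : Type w} [AddCommGroup Q] [Module K Q] {A : ι → ι → Module.End K Q}

lemma cc_self (b : Bool) : cc K b b = sg K b := by cases b <;> simp [cc, sg]

lemma cc_ne {a b : Bool} (h : a ≠ b) : cc K a b = 1 := by
  cases a <;> cases b <;> simp_all [cc]

lemma sg_sq (b : Bool) : sg K b * sg K b = 1 := by cases b <;> simp [sg]

lemma sg_ne {a b : Bool} (h : a ≠ b) : sg K a * sg K b = -1 := by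
  cases a <;> cases b <;> simp_all [sg]

/-- the antisymmetry with respect to the form, different parities -/
lemma anti1 (hF : FormIdx o σ γ N) (hA : OspRel o σ γ A) {c' i : ι} (h : o c' ≠ o i) :
    γ i • A (σ i) c' = -(γ c' • A (σ c') i) := by
  have h1 := hA.anti (σ c') i
  unfold tauA at h1
  rw [hF.inv, hF.par, cc_ne (Ne.symm h), one_mul] at h1
  have h2 : γ c' • ((γ i * (γ c')⁻¹) • A (σ i) c') = γ c' • (-A (σ c') i) := by rw [h1]
  rw [smul_smul] at h2
  have h3 : γ c' * (γ i * (γ c')⁻¹) = γ i := by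
    have := hF.ne c'
    field_simp
  rw [h3, smul_neg] at h2
  exact h2

/-- `[A c c', A k i]` -/
lemma com1 (hF : FormIdx o σ γ N) (hA : OspRel o σ γ A) {c c' k i : ι} (hc : o c = o c')
    (hk : o k = o c) (hi : o i ≠ o c) :
    A c c' * A k i - A k i * A c c' =
      (if k = σ c then (γ c' * (γ k)⁻¹) • A (σ c') i else 0) -
      (if k = c' then sg K (o c) • A c i else 0) := by
  have h := hA.rel c c' k i
  have e1 : cc K (o c') (o k) * cc K (o c) (o k) = 1 := by
    rw [← hc, hk, cc_self, sg_sq]
  have e2 : cc K (o c') (o i) * cc K (o c) (o i) = 1 := by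
    rw [← hc, cc_ne (Ne.symm hi), one_mul]
  have e3 : ¬ (c = i) := fun h => hi (by rw [h])
  have e4 : ¬ (c' = σ i) := fun h => hi (by rw [hc, h, hF.par])
  have e5 : cc K (o c) (o c') = sg K (o c) := by rw [← hc, cc_self]
  have e6 : cc K (o c') (o i) = 1 := by rw [← hc, cc_ne (Ne.symm hi)]
  rw [e1, e2, one_smul, one_smul, if_neg e3, if_neg e4, e5, e6, one_mul, zero_sub, add_zero] at h
  rw [h]
  have e7 : (if c = σ k then (γ i * (γ k)⁻¹) • A (σ i) c' else 0) =
      -(if k = σ c then (γ c' * (γ k)⁻¹) • A (σ c') i else 0) := by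
    by_cases hk' : k = σ c
    · have hk'' : c = σ k := by rw [hk', hF.inv]
      rw [if_pos hk'', if_pos hk', mul_comm (γ i), mul_comm (γ c'), ← smul_smul, ← smul_smul,
        anti1 hF hA (by rw [← hc]; exact Ne.symm hi), smul_neg]
    · have hk'' : ¬ c = σ k := fun h => hk' (by rw [h, hF.inv])
      rw [if_neg hk'', if_neg hk', neg_zero]
  rw [e7]
  abel

/-- `[A c c', A i k]` -/
lemma com2 (hF : FormIdx o σ γ N) (hA : OspRel o σ γ A) {c c' k i : ι} (hc : o c = o c')
    (hk : o k = o c) (hi : o i ≠ o c) :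
    A c c' * A i k - A i k * A c c' =
      (if k = c then sg K (o c) • A i c' else 0) -
      (if k = σ c' then (γ k * (γ c)⁻¹) • A i (σ c) else 0) := by
  have h := hA.rel c c' i k
  have e1 : cc K (o c') (o i) * cc K (o c) (o i) = 1 := by
    rw [← hc, cc_ne (Ne.symm hi), one_mul]
  have e2 : cc K (o c') (o k) * cc K (o c) (o k) = 1 := by
    rw [← hc, hk, cc_self, sg_sq]
  have e3 : ¬ (i = c') := fun h => hi (by rw [h, hc])
  have e4 : ¬ (c = σ i) := fun h => hi (by rw [h, hF.par])
  have e5 : cc K (o c') (o k) = sg K (o c) := by rw [← hc, hk, cc_self]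
  have e6 : cc K (o c) (o i) = 1 := cc_ne (Ne.symm hi)
  have e8 : cc K (o c) (o i) * sg K (o k) * sg K (o i) = -1 := by
    rw [e6, one_mul, hk, sg_ne (Ne.symm hi)]
  rw [e1, e2, one_smul, one_smul, if_neg e3, if_neg e4, e5, e8, sub_zero, sub_zero] at h
  rw [h]
  have e7 : (if c' = σ k then (-1 * γ k * (γ i)⁻¹) • A c (σ i) else 0) =
      -(if k = σ c' then (γ k * (γ c)⁻¹) • A i (σ c) else 0) := by
    by_cases hk' : k = σ c'
    · have hk'' : c' = σ k := by rw [hk', hF.inv]
      rw [if_pos hk'', if_pos hk']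
      have h1 := hA.anti i (σ c)
      unfold tauA at h1
      rw [hF.inv, hF.par, cc_ne (Ne.symm hi), one_mul, hF.sym, hF.sym] at h1
      have h2 : (γ k * (γ c)⁻¹) • A i (σ c) =
          -((γ k * (γ c)⁻¹) • (sg K (o c) * γ c * (sg K (o i) * γ i)⁻¹) • A c (σ i)) := by
        rw [h1, smul_neg, neg_neg]
      rw [h2, neg_neg, smul_smul]
      congr 1
      have hc0 := hF.ne c
      have hi0 := hF.ne i
      have h3 : (sg K (o i))⁻¹ = sg K (o i) := by
        cases o i <;> simp [sg]
      rw [mul_inv, h3]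
      have h4 := sg_ne (K := K) hi
      field_simp
      linear_combination (-γ k) * h4
    · have hk'' : ¬ c' = σ k := fun h => hk' (by rw [h, hF.inv])
      rw [if_neg hk'', if_neg hk', neg_zero]
  rw [e7]
  have e9 : (if c = k then sg K (o c) • A i c' else 0) =
      (if k = c then sg K (o c) • A i c' else 0) := by
    by_cases h : k = c
    · rw [if_pos h, if_pos h.symm]
    · rw [if_neg h, if_neg (Ne.symm h)]
  rw [e9]
  abel

/-- the commutator with `∑ A k i A i k` -/
lemma com3 (hF : FormIdx o σ γ N) (hA : OspRel o σ γ A) {c c' i : ι} (hc : o c = o c')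
    (hi : o i ≠ o c) :
    A c c' * (∑ k with o k = o c, A k i * A i k) =
      (∑ k with o k = o c, A k i * A i k) * A c c' := by
  rw [← sub_eq_zero, Finset.mul_sum, Finset.sum_mul, ← Finset.sum_sub_distrib]
  have h1 : ∀ k ∈ Finset.univ.filter (fun k => o k = o c),
      A c c' * (A k i * A i k) - A k i * A i k * A c c' =
      ((if k = σ c then (γ c' * (γ k)⁻¹) • (A (σ c') i * A i k) else 0) -
      (if k = c' then sg K (o c) • (A c i * A i k) else 0)) +
      ((if k = c then sg K (o c) • (A k i * A i c') else 0) -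
      (if k = σ c' then (γ k * (γ c)⁻¹) • (A k i * A i (σ c)) else 0)) := by
    intro k hk
    rw [Finset.mem_filter] at hk
    have h2 := com1 hF hA hc hk.2 hi
    have h3 := com2 hF hA hc hk.2 hi
    have h4 : A c c' * (A k i * A i k) - A k i * A i k * A c c' =
        (A c c' * A k i - A k i * A c c') * A i k + A k i * (A c c' * A i k - A i k * A c c') := by
      noncomm_ring
    rw [h4, h2, h3, sub_mul, mul_sub]
    congr 1
    · congr 1 <;> split_ifs <;> simp
    · congr 1 <;> split_ifs <;> simp
  rw [Finset.sum_congr rfl h1, Finset.sum_add_distrib, Finset.sum_sub_distrib,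
    Finset.sum_sub_distrib, Finset.sum_ite_eq', Finset.sum_ite_eq', Finset.sum_ite_eq',
    Finset.sum_ite_eq']
  have m1 : σ c ∈ Finset.univ.filter (fun k => o k = o c) := by simp [hF.par]
  have m2 : c' ∈ Finset.univ.filter (fun k => o k = o c) := by simp [hc]
  have m3 : c ∈ Finset.univ.filter (fun k => o k = o c) := by simp
  have m4 : σ c' ∈ Finset.univ.filter (fun k => o k = o c) := by simp [hF.par, hc]
  rw [if_pos m1, if_pos m2, if_pos m3, if_pos m4]
  have h5 : γ c' * (γ (σ c))⁻¹ = γ (σ c') * (γ c)⁻¹ := by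
    rw [hF.sym, hF.sym, ← hc, mul_inv]
    have h3 : (sg K (o c))⁻¹ = sg K (o c) := by
      cases o c <;> simp [sg]
    rw [h3]
    ring
  rw [h5]
  abel

/-- the commutator with `∑ A i k A k i` -/
lemma com4 (hF : FormIdx o σ γ N) (hA : OspRel o σ γ A) {c c' i : ι} (hc : o c = o c')
    (hi : o i ≠ o c) :
    A c c' * (∑ k with o k = o c, A i k * A k i) =
      (∑ k with o k = o c, A i k * A k i) * A c c' := by
  rw [← sub_eq_zero, Finset.mul_sum, Finset.sum_mul, ← Finset.sum_sub_distrib]
  have h1 : ∀ k ∈ Finset.univ.filter (fun k => o k = o c),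
      A c c' * (A i k * A k i) - A i k * A k i * A c c' =
      ((if k = σ c then (γ c' * (γ k)⁻¹) • (A i k * A (σ c') i) else 0) -
      (if k = c' then sg K (o c) • (A i k * A c i) else 0)) +
      ((if k = c then sg K (o c) • (A i c' * A k i) else 0) -
      (if k = σ c' then (γ k * (γ c)⁻¹) • (A i (σ c) * A k i) else 0)) := by
    intro k hk
    rw [Finset.mem_filter] at hk
    have h2 := com1 hF hA hc hk.2 hi
    have h3 := com2 hF hA hc hk.2 hi
    have h4 : A c c' * (A i k * A k i) - A i k * A k i * A c c' =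
        A i k * (A c c' * A k i - A k i * A c c') + (A c c' * A i k - A i k * A c c') * A k i := by
      noncomm_ring
    rw [h4, h2, h3, sub_mul, mul_sub]
    congr 1
    · congr 1 <;> split_ifs <;> simp
    · congr 1 <;> split_ifs <;> simp
  rw [Finset.sum_congr rfl h1, Finset.sum_add_distrib, Finset.sum_sub_distrib,
    Finset.sum_sub_distrib, Finset.sum_ite_eq', Finset.sum_ite_eq', Finset.sum_ite_eq',
    Finset.sum_ite_eq']
  have m1 : σ c ∈ Finset.univ.filter (fun k => o k = o c) := by simp [hF.par]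
  have m2 : c' ∈ Finset.univ.filter (fun k => o k = o c) := by simp [hc]
  have m3 : c ∈ Finset.univ.filter (fun k => o k = o c) := by simp
  have m4 : σ c' ∈ Finset.univ.filter (fun k => o k = o c) := by simp [hF.par, hc]
  rw [if_pos m1, if_pos m2, if_pos m3, if_pos m4]
  have h5 : γ c' * (γ (σ c))⁻¹ = γ (σ c') * (γ c)⁻¹ := by
    rw [hF.sym, hF.sym, ← hc, mul_inv]
    have h3 : (sg K (o c))⁻¹ = sg K (o c) := by
      cases o c <;> simp [sg]
    rw [h3]
    ring
  rw [h5]
  abel

lemma commXX (hF : FormIdx o σ γ N) (hA : OspRel o σ γ A) {c c' : ι} (hc : o c = o c')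
    (b : Bool) : Commute (XX o A b) (A c c') := by
  unfold XX
  by_cases hb : b = o c
  · subst hb
    rw [Finset.sum_comm' (t' := Finset.univ.filter (fun i => o i ≠ o c))
      (s' := fun _ => Finset.univ.filter (fun k => o k = o c)) (by intro x y; simp [and_comm])]
    refine Commute.sum_left _ _ _ ?_
    intro i hi
    rw [Finset.mem_filter] at hi
    exact (com3 hF hA hc hi.2).symm
  · refine Commute.sum_left _ _ _ ?_
    intro k hk
    rw [Finset.mem_filter] at hk
    have hset : (Finset.univ.filter (fun i => o i ≠ b)) =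
        (Finset.univ.filter (fun i => o i = o c)) := by
      ext i
      simp only [Finset.mem_filter, Finset.mem_univ, true_and]
      cases h1 : o i <;> cases h2 : b <;> cases h3 : o c <;> simp_all
    rw [hset]
    have hi : o k ≠ o c := by rw [hk.2]; exact hb
    exact (com4 hF hA hc hi).symm

end

theorem p_ocm : P_OCM.{w} := by
  intro K _ _ ι _ _ o σ γ N hF Q _ _ A hA c c' hc
  unfold ZZ
  exact (commXX hF hA hc false).sub_left (commXX hF hA hc true)

end Pool.Agent.W2helper78.SG
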